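import Mathlib
import Pool.Agent.N715.BO.Orb

/-!
# Points of small degree over abelian extensions in the backward orbit of a wandering point

Let `f` be a rational map of the projective line, of degree `d ≥ 2`, over a number field `K`. There
is no hypothesis on the reduction or on the critical orbits of `f`.

(1) For all `B` and `r` there is a constant `C` with the following property. Let `k` be an extension
of `K` of degree at most `B`, let `E` be an abelian extension of `k`, let `L` be an extension of `E`
of degree at most `r` and let `P` be a point of `P^1(L)` such that `β = f^n(P)` is a wandering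
point of `P^1(K)`. Then `n ≤ C * (1 + log (1 + h(β)))`.

(2) Let `β ∈ P^1(K)` be wandering. For each `r` there are only finitely many points of degree at
most `r` over the maximal abelian extension `K^ab` in the whole backward orbit of `β`. In
particular (`r = 1`) the backward orbit of `β` contains only finitely many points which generate an
abelian extension of `K`.

(3) Let `β ∈ P^1(K)` be wandering. The number of the Galois orbits over `K^ab` (and hence
over `K`, and over each abelian extension of `K`) into which `f^(-n)(β)` splits is `o(d^n)`.

Idea of the proof. The canonical height of a point `P` of `f^(-n)(β)` is `ĥ(β) / d^n` and its degree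
over `k` is at most `d^n`. If `P` has degree at most `r` over an abelian extension of `k`, then the
canonical height is at least `1 / (C (1 + log D)^C)`, where `D` is the degree of `P`; this is
the theorem of `Pool/Agent/Results/MP_2194ec_nt/AbelianLehmer.lean`.
-/

set_option autoImplicit false

namespace Pool.Agent.Results.MP_a2c890_nt.AbelianPreimages

open MvPolynomial NumberField Module Filter Topology

/-- the map defined by a pair of forms over `K`, on coordinate vectors over an extension -/
noncomputable def evalMap {K L : Type} [Field K] [Field L] [Algebra K L]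
    (F : Fin 2 → MvPolynomial (Fin 2) K) (y : Fin 2 → L) : Fin 2 → L :=
  fun i => aeval y (F i)

/-- the point with coordinate vector `x` is wandering: its iterates are pairwise distinct points
of the projective line -/
def Wandering {K L : Type} [Field K] [Field L] [Algebra K L]
    (F : Fin 2 → MvPolynomial (Fin 2) K) (x : Fin 2 → L) : Prop :=
  ¬ ∃ m n : ℕ, m ≠ n ∧ ∃ c : L, c ≠ 0 ∧ (evalMap F)^[n] x = c • (evalMap F)^[m] x

/-- the absolute logarithmic Weil height of the point with coordinate vector `b` over the number
field `K` -/
noncomputable def weilHeight {K : Type} [Field K] [NumberField K] (b : Fin 2 → K) : ℝ :=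
  Height.logHeight b / finrank ℚ K

/-- the affine coordinates `z` of the points `[z : 1]` of `f^(-n)(β)` over the algebraic closure of
`K`, where `β` is the point with coordinate vector `b`. The point at infinity is left out. -/
def preimages {K : Type} [Field K] (F : Fin 2 → MvPolynomial (Fin 2) K) (b : Fin 2 → K)
    (n : ℕ) : Set (AlgebraicClosure K) :=
  {z | ∃ c : AlgebraicClosure K, c ≠ 0 ∧
    (evalMap F)^[n] ![z, 1] = c • fun i => algebraMap K (AlgebraicClosure K) (b i)}

/-- `K^ab`, the maximal abelian extension of `K` in its algebraic closure: the field fixed by the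
commutator subgroup of the absolute Galois group -/
noncomputable def maximalAbelian (K : Type) [Field K] :
    IntermediateField K (AlgebraicClosure K) :=
  IntermediateField.fixedField (commutator Gal(AlgebraicClosure K/K))

/-- the number of the orbits `{σ(z) : σ}`, `z ∈ S`, where `σ` runs over the automorphisms of the
algebraic closure of `K` which fix the elements of `M` -/
noncomputable def orbitNumber {K : Type} [Field K] (M : IntermediateField K (AlgebraicClosure K))
    (S : Set (AlgebraicClosure K)) : ℕ :=
  {O : Set (AlgebraicClosure K) | ∃ z ∈ S, O = {w | ∃ σ ∈ M.fixingSubgroup, σ z = w}}.ncard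

/-- **Main result.** -/
theorem result (K : Type) [Field K] [NumberField K] (d : ℕ) (hd : 2 ≤ d)
    -- the rational map: two binary forms of degree `d` without common zero
    (F : Fin 2 → MvPolynomial (Fin 2) K) (hF : ∀ i, (F i).IsHomogeneous d)
    (hmor : ∀ z : Fin 2 → AlgebraicClosure K, (∀ i, aeval z (F i) = 0) → z = 0) :
    -- (1)
    (∀ B r : ℕ, ∃ C : ℕ, 0 < C ∧ ∀ (k E L : Type) [Field k] [NumberField k] [Field E]
      [NumberField E] [Field L] [NumberField L] [Algebra K k] [Algebra k E] [Algebra E L]
      [Algebra K L] [Algebra k L] [IsScalarTower K k L] [IsScalarTower k E L]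
      -- the extension `E / k` is Galois with commutative Galois group
      [IsAbelianGalois k E],
      finrank K k ≤ B → finrank E L ≤ r →
      ∀ b : Fin 2 → K, b ≠ 0 → Wandering F b →
      ∀ (n : ℕ) (x : Fin 2 → L) (c : L), c ≠ 0 →
        (evalMap F)^[n] x = c • (fun i => algebraMap K L (b i)) →
        (n : ℝ) ≤ C * (1 + Real.log (1 + weilHeight b))) ∧
    ∀ b : Fin 2 → K, b ≠ 0 → Wandering F b →
      -- (2)
      (∀ r : ℕ, {z : AlgebraicClosure K | (∃ n, z ∈ preimages F b n) ∧
        (minpoly (maximalAbelian K) z).natDegree ≤ r}.Finite) ∧
      -- (3)
      (∀ n, (preimages F b n).Finite) ∧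
      (∀ ε : ℝ, 0 < ε → ∃ n₀ : ℕ, ∀ n ≥ n₀,
        (orbitNumber (maximalAbelian K) (preimages F b n) : ℝ) ≤ ε * (d : ℝ) ^ n) :=
  ⟨fun B r => Pool.Agent.N715.BO.level K d hd F hF hmor B r, fun b hb hw =>
    ⟨fun r => Pool.Agent.N715.BO.finite_small (F := F) hd hF hmor hb hw r,
      fun n => (Pool.Agent.N715.BO.Fb_card (F := F) (by omega) hF hmor hb n).1,
      fun _ hε => Pool.Agent.N715.BO.orbits (F := F) hd hF hmor hb hw hε⟩⟩

end Pool.Agent.Results.MP_a2c890_nt.AbelianPreimages
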